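import Pool.Agent.helper4.QX.SpecD
import Pool.Agent.helper62.QU.All

set_option autoImplicit false

/-!
# Row SRK of project QX: the kernel of `p(conv κ) conv κa conv κb`
-/

open scoped MatrixGroups ContDiff Topology UpperHalfPlane
open UpperHalfPlane MeasureTheory ProbabilityTheory Filter Set Polynomial
open Pool.Agent.QU Pool.Agent.RP

namespace Pool.Agent.QX

/-- continuous kernels of finite propagation -/
structure SRK_G (K : ℍ → ℍ → ℝ) (R : ℝ) : Prop where
  cont : Continuous (Function.uncurry K)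
  supp : ∀ z v, K z v ≠ 0 → dist z v ≤ R

theorem SRK_kc {κ : ℝ → ℝ} (hκ : RK κ) : Continuous fun p : ℍ × ℍ => κ (tt p.1 p.2) :=
  hκ.smooth.continuous.comp A_TTT.2.2.2.2.1

theorem SRK_base {κ : ℝ → ℝ} (hκ : RK κ) {r : ℝ} (hr : ∀ z w : ℍ, κ (tt z w) ≠ 0 → dist z w ≤ r) :
    SRK_G (fun z v => κ (tt z v)) r := ⟨SRK_kc hκ, hr⟩

theorem SRK_step {κ : ℝ → ℝ} (hκ : RK κ) {r : ℝ} (hr : ∀ z w : ℍ, κ (tt z w) ≠ 0 → dist z w ≤ r)
    {K : ℍ → ℍ → ℝ} {R : ℝ} (hK : SRK_G K R) : SRK_G (fun z v => conv κ (K z) v) (R + r) := by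
  constructor
  · have := KER_contInt (X := ℍ × ℍ) (fun p w => κ (tt p.2 w) • K p.1 w) ?_ ?_
    · exact this
    · show Continuous fun q : (ℍ × ℍ) × ℍ => κ (tt q.1.2 q.2) * K q.1.1 q.2
      refine Continuous.mul ?_ ?_
      · exact (SRK_kc hκ).comp (by fun_prop : Continuous fun q : (ℍ × ℍ) × ℍ => (q.1.2, q.2))
      · exact hK.cont.comp (by fun_prop : Continuous fun q : (ℍ × ℍ) × ℍ => (q.1.1, q.2))
    · intro p₀
      refine ⟨Metric.ball p₀ 1, Metric.ball_mem_nhds _ one_pos, Metric.closedBall p₀.1 (R + 1),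
        isCompact_closedBall _ _, fun p hp x hx => ?_⟩
      by_contra hc
      have h3 := hK.supp p.1 x (smul_ne_zero_iff.mp hc).2
      have h4 : dist p.1 p₀.1 < 1 := lt_of_le_of_lt (by simp [Prod.dist_eq]) (Metric.mem_ball.mp hp)
      apply hx
      rw [Metric.mem_closedBall]
      have := dist_triangle x p.1 p₀.1
      rw [dist_comm x p.1] at this
      linarith
  · intro z v hne
    by_contra hc
    apply hne
    show (∫ w : ℍ, κ (tt v w) • K z w) = 0
    rw [integral_eq_zero_of_ae]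
    refine Eventually.of_forall fun w => ?_
    by_contra hv
    have h3 := smul_ne_zero_iff.mp hv
    have h4 := hr v w h3.1
    have h5 := hK.supp z w h3.2
    have := dist_triangle z w v
    rw [dist_comm w v] at this
    linarith

section vec

variable {E : Type} [NormedAddCommGroup E] [NormedSpace ℝ E]

theorem SRK_intc {K : ℍ → ℍ → ℝ} {R : ℝ} (hK : SRK_G K R) {f : ℍ → E} (hf : StronglyMeasurable f)
    {m : ℝ} (hm : ∀ z, ‖f z‖ ≤ m) : Continuous (fun v => ∫ z : ℍ, K z v • f z) := by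
  rw [continuous_iff_continuousAt]
  intro v₀
  have hk : IsCompact (Metric.closedBall v₀ (R + 1)) := isCompact_closedBall _ _
  have hfi : IntegrableOn f (Metric.closedBall v₀ (R + 1)) (volume : Measure ℍ) :=
    Measure.integrableOn_of_bounded hk.measure_lt_top.ne hf.aestronglyMeasurable
      (Eventually.of_forall hm)
  have h := continuousOn_integral_bilinear_of_locally_integrable_of_compact_support
    ((ContinuousLinearMap.lsmul ℝ ℝ : ℝ →L[ℝ] E →L[ℝ] E).flip) (μ := (volume : Measure ℍ)) hk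
    (f := fun v z => K z v) (s := Metric.ball v₀ 1) (g := f)
    ((hK.cont.comp (by fun_prop : Continuous fun q : ℍ × ℍ => (q.2, q.1))).continuousOn)
    (fun v z hv hz => by
      by_contra hc
      apply hz
      have h1 := hK.supp z v hc
      have h2 := Metric.mem_ball.mp hv
      have h3 := dist_triangle z v v₀
      rw [Metric.mem_closedBall]
      linarith) hfi
  exact h.continuousAt (Metric.ball_mem_nhds _ one_pos)

theorem SRK_fub [CompleteSpace E] {κ : ℝ → ℝ} (hκ : RK κ) {r : ℝ}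
    (hr : ∀ z w : ℍ, κ (tt z w) ≠ 0 → dist z w ≤ r)
    {K : ℍ → ℍ → ℝ} {R : ℝ} (hK : SRK_G K R) {f : ℍ → E} (hf : StronglyMeasurable f)
    {m : ℝ} (hm : ∀ z, ‖f z‖ ≤ m) (v : ℍ) :
    conv κ (fun v => ∫ z : ℍ, K z v • f z) v = ∫ z : ℍ, conv κ (K z) v • f z := by
  have hm0 : 0 ≤ m := (norm_nonneg (f v)).trans (hm v)
  set C : Set (ℍ × ℍ) := Metric.closedBall v r ×ˢ Metric.closedBall v (r + R) with hC
  have hCc : IsCompact C := (isCompact_closedBall _ _).prod (isCompact_closedBall _ _)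
  have hcont : Continuous fun q : ℍ × ℍ => κ (tt v q.1) * K q.2 q.1 :=
    ((SRK_kc hκ).comp (by fun_prop : Continuous fun q : ℍ × ℍ => (v, q.1))).mul
      (hK.cont.comp (by fun_prop : Continuous fun q : ℍ × ℍ => (q.2, q.1)))
  have hsupp : ∀ q : ℍ × ℍ, κ (tt v q.1) * K q.2 q.1 ≠ 0 → q ∈ C := by
    intro q hq
    have h1 := hr v q.1 (left_ne_zero_of_mul hq)
    have h2 := hK.supp q.2 q.1 (right_ne_zero_of_mul hq)
    rw [hC, mem_prod, Metric.mem_closedBall, Metric.mem_closedBall]
    have h3 := dist_triangle q.2 q.1 v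
    rw [dist_comm q.1 v] at h3
    exact ⟨by rw [dist_comm]; exact h1, by linarith⟩
  obtain ⟨B, hB⟩ := hCc.exists_bound_of_continuousOn hcont.continuousOn
  have hint : Integrable (fun q : ℍ × ℍ => (κ (tt v q.1) * K q.2 q.1) • f q.2)
      ((volume : Measure ℍ).prod (volume : Measure ℍ)) := by
    have h1 : IntegrableOn (fun q : ℍ × ℍ => (κ (tt v q.1) * K q.2 q.1) • f q.2) C
        ((volume : Measure ℍ).prod (volume : Measure ℍ)) := by
      refine Measure.integrableOn_of_bounded (M := B * m) hCc.measure_lt_top.ne ?_ ?_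
      · exact (hcont.stronglyMeasurable.smul (hf.comp_measurable measurable_snd)).aestronglyMeasurable
      · refine (ae_restrict_iff' hCc.measurableSet).mpr (Eventually.of_forall fun q hq => ?_)
        rw [norm_smul]
        exact mul_le_mul (hB q hq) (hm _) (norm_nonneg _) ((norm_nonneg _).trans (hB q hq))
    refine (integrableOn_iff_integrable_of_support_subset ?_).1 h1
    intro q hq
    exact hsupp q (smul_ne_zero_iff.mp hq).1
  have e1 : conv κ (fun v => ∫ z : ℍ, K z v • f z) v =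
      ∫ w : ℍ, ∫ z : ℍ, (κ (tt v w) * K z w) • f z := by
    unfold conv
    refine integral_congr_ae (Eventually.of_forall fun w => ?_)
    show κ (tt v w) • (∫ z : ℍ, K z w • f z) = ∫ z : ℍ, (κ (tt v w) * K z w) • f z
    rw [← integral_smul]
    refine integral_congr_ae (Eventually.of_forall fun z => ?_)
    exact (mul_smul _ _ _).symm
  rw [e1, integral_integral_swap hint]
  refine integral_congr_ae (Eventually.of_forall fun z => ?_)
  show (∫ w : ℍ, (κ (tt v w) * K z w) • f z) = (∫ w : ℍ, κ (tt v w) • K z w) • f z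
  rw [integral_smul_const]
  rfl

end vec

/-- the iterates -/
noncomputable def SRK_it (κ : ℝ → ℝ) (K : ℍ → ℍ → ℝ) (j : ℕ) (z v : ℍ) : ℝ := (conv κ)^[j] (K z) v

theorem SRK_its (κ : ℝ → ℝ) (K : ℍ → ℍ → ℝ) (j : ℕ) (z v : ℍ) :
    SRK_it κ K (j + 1) z v = conv κ (SRK_it κ K j z) v := by
  unfold SRK_it
  rw [Function.iterate_succ_apply']

theorem SRK_itG {κ : ℝ → ℝ} (hκ : RK κ) {r : ℝ} (hr : ∀ z w : ℍ, κ (tt z w) ≠ 0 → dist z w ≤ r)
    {K : ℍ → ℍ → ℝ} {R : ℝ} (hK : SRK_G K R) (j : ℕ) : SRK_G (SRK_it κ K j) (R + j * r) := by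
  induction j with
  | zero =>
    have h : SRK_it κ K 0 = K := rfl
    rw [h, Nat.cast_zero, zero_mul, add_zero]
    exact hK
  | succ j ih =>
    have h : SRK_it κ K (j + 1) = fun z v => conv κ (SRK_it κ K j z) v := by
      funext z v
      exact SRK_its κ K j z v
    have h2 := SRK_step hκ hr ih
    rw [h, Nat.cast_succ]
    rw [show R + ((j : ℝ) + 1) * r = R + j * r + r by ring]
    exact h2

theorem SRK_inv1 (κ : ℝ → ℝ) {K : ℍ → ℍ → ℝ} (hK : ∀ (g : SL(2, ℝ)) (z v : ℍ), K (g • z) (g • v) = K z v)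
    (g : SL(2, ℝ)) (z v : ℍ) : conv κ (K (g • z)) (g • v) = conv κ (K z) v := by
  rw [← (A_CVB ℝ).1 κ (K (g • z)) g v]
  have h : (fun w => K (g • z) (g • w)) = K z := by
    funext w
    exact hK g z w
  rw [h]

theorem SRK_inv (κ : ℝ → ℝ) {K : ℍ → ℍ → ℝ} (hK : ∀ (g : SL(2, ℝ)) (z v : ℍ), K (g • z) (g • v) = K z v)
    (j : ℕ) : ∀ (g : SL(2, ℝ)) (z v : ℍ), SRK_it κ K j (g • z) (g • v) = SRK_it κ K j z v := by
  induction j with
  | zero => exact hK
  | succ j ih =>
    intro g z v
    rw [SRK_its, SRK_its]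
    exact SRK_inv1 κ ih g z v

theorem SRK_dist {κ : ℝ → ℝ} {τ : ℝ} (hτ : 0 ≤ τ) (h : ∀ t, τ ≤ t → κ t = 0) (z w : ℍ)
    (hne : κ (tt z w) ≠ 0) : dist z w ≤ 2 * Real.sqrt τ := by
  have h1 : tt z w < τ := by
    by_contra hc
    exact hne (h _ (not_lt.mp hc))
  rw [A_TTT.1] at h1
  have h2 : 1 + dist z w ^ 2 / 2 ≤ Real.cosh (dist z w) := by
    have h4 : dist z w / 2 ≤ Real.sinh (dist z w / 2) :=
      Real.self_le_sinh_iff.mpr (by positivity)
    have h5 : Real.cosh (dist z w) = 1 + 2 * Real.sinh (dist z w / 2) ^ 2 := by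
      have h6 := Real.cosh_two_mul (dist z w / 2)
      rw [Real.cosh_sq, show 2 * (dist z w / 2) = dist z w by ring] at h6
      linarith
    have h7 : (dist z w / 2) ^ 2 ≤ Real.sinh (dist z w / 2) ^ 2 :=
      pow_le_pow_left₀ (by positivity) h4 2
    rw [h5]
    linarith
  have h3 : dist z w ^ 2 ≤ (2 * Real.sqrt τ) ^ 2 := by
    rw [mul_pow, Real.sq_sqrt hτ]
    linarith
  exact le_of_sq_le_sq h3 (by positivity)

theorem SRK (_hYNM : YNM_stmt) (_hCVI : CVI_stmt) : SRK_stmt := by
  intro κ κa κb p hκ hκa hκb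
  obtain ⟨r, hr0, hr⟩ := KER_rad A_TTT hκ
  obtain ⟨ra, hra0, hra⟩ := KER_rad A_TTT hκa
  obtain ⟨rb, hrb0, hrb⟩ := KER_rad A_TTT hκb
  -- the inner kernel
  set K : ℍ → ℍ → ℝ := fun z v => conv κa (fun w => κb (tt z w)) v with hK
  have hKG := SRK_step hκa hra (SRK_base hκb hrb)
  have hSk : ∀ z v, Sk κ p κa κb z v =
      ∑ j ∈ Finset.range (p.natDegree + 1), p.coeff j • SRK_it κ K j z v := fun z v => rfl
  have hKinv : ∀ (g : SL(2, ℝ)) (z v : ℍ), K (g • z) (g • v) = K z v := fun g z v =>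
    SRK_inv1 κa (K := fun z w => κb (tt z w)) (fun g z w => by
      show κb (tt (g • z) (g • w)) = κb (tt z w)
      rw [A_TTT.2.2.2.1 g z w]) g z v
  refine ⟨?_, ?_, ?_, ?_⟩
  · have h : Function.uncurry (Sk κ p κa κb) = fun q : ℍ × ℍ =>
        ∑ j ∈ Finset.range (p.natDegree + 1), p.coeff j • SRK_it κ K j q.1 q.2 := by
      funext q
      exact hSk q.1 q.2
    rw [h]
    refine continuous_finsetSum _ fun j _ => ?_
    have hc : Continuous fun q : ℍ × ℍ => SRK_it κ K j q.1 q.2 := (SRK_itG hκ hr hKG j).cont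
    exact hc.const_smul (p.coeff j)
  · intro g z v
    rw [hSk, hSk]
    refine Finset.sum_congr rfl fun j _ => ?_
    rw [SRK_inv κ hKinv j g z v]
  · intro τ η hτ0 hτ1 hη0 hη1 h1 h2 h3 z v hne
    have hs : Real.sqrt η ≤ 1 := Real.sqrt_le_one.mpr hη1
    have hKG' := SRK_step hκa (SRK_dist hη0 h2) (SRK_base hκb (SRK_dist hη0 h3))
    rw [hSk] at hne
    obtain ⟨j, hj, hj2⟩ := Finset.exists_ne_zero_of_sum_ne_zero hne
    have h4 := (SRK_itG hκ (SRK_dist hτ0 h1) hKG' j).supp z v (smul_ne_zero_iff.mp hj2).2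
    have h5 : (j : ℝ) ≤ p.natDegree := by
      exact_mod_cast Nat.lt_succ_iff.mp (Finset.mem_range.mp hj)
    have h6 : (j : ℝ) * (2 * Real.sqrt τ) ≤ p.natDegree * (2 * Real.sqrt τ) :=
      mul_le_mul_of_nonneg_right h5 (by positivity)
    linarith
  · intro E _ _ _ f hf hfm
    obtain ⟨m, hm⟩ := hfm
    have e0 : ∀ v, conv κb f v = ∫ z : ℍ, κb (tt z v) • f z := by
      intro v
      unfold conv
      refine integral_congr_ae (Eventually.of_forall fun z => ?_)
      show κb (tt v z) • f z = κb (tt z v) • f z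
      rw [A_TTT.2.2.1 v z]
    have e1 : conv κb f = fun v => ∫ z : ℍ, κb (tt z v) • f z := funext e0
    refine ⟨?_, ?_⟩
    · rw [e1]
      exact SRK_intc (SRK_base hκb hrb) hf hm
    · have e2 : conv κa (conv κb f) = fun v => ∫ z : ℍ, K z v • f z := by
        funext v
        rw [e1]
        exact SRK_fub hκa hra (SRK_base hκb hrb) hf hm v
      have e3 : ∀ j : ℕ, (conv κ)^[j] (conv κa (conv κb f)) = fun v => ∫ z : ℍ, SRK_it κ K j z v • f z := by
        intro j
        induction j with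
        | zero => exact e2
        | succ j ih =>
          funext v
          rw [Function.iterate_succ_apply', ih]
          have h := SRK_fub hκ hr (SRK_itG hκ hr hKG j) hf hm v
          rw [h]
          refine integral_congr_ae (Eventually.of_forall fun z => ?_)
          show conv κ (SRK_it κ K j z) v • f z = SRK_it κ K (j + 1) z v • f z
          rw [SRK_its]
      have hint : ∀ (j : ℕ) (v : ℍ), Integrable (fun z => SRK_it κ K j z v • f z) (volume : Measure ℍ) := by
        intro j v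
        have hG := SRK_itG hκ hr hKG j
        have hcont : Continuous fun z => SRK_it κ K j z v :=
          hG.cont.comp (by fun_prop : Continuous fun z : ℍ => (z, v))
        have hcs : HasCompactSupport fun z => SRK_it κ K j z v :=
          KER_hcs _ v _ (fun z hz => by rw [dist_comm]; exact hG.supp z v hz)
        have hi : Integrable (fun z => SRK_it κ K j z v) (volume : Measure ℍ) :=
          hcont.integrable_of_hasCompactSupport hcs
        exact hi.smul_bdd m hf.aestronglyMeasurable (Eventually.of_forall hm)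
      intro v
      have e4 : pA κ p (conv κa (conv κb f)) v =
          ∑ j ∈ Finset.range (p.natDegree + 1), p.coeff j • ∫ z : ℍ, SRK_it κ K j z v • f z := by
        unfold pA
        refine Finset.sum_congr rfl fun j _ => ?_
        rw [e3 j]
      rw [e4]
      have e5 : (∫ z : ℍ, Sk κ p κa κb z v • f z) = ∫ z : ℍ,
          ∑ j ∈ Finset.range (p.natDegree + 1), p.coeff j • (SRK_it κ K j z v • f z) := by
        refine integral_congr_ae (Eventually.of_forall fun z => ?_)
        show Sk κ p κa κb z v • f z = _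
        rw [hSk, Finset.sum_smul]
        refine Finset.sum_congr rfl fun j _ => ?_
        rw [smul_assoc]
      have hint' : ∀ j ∈ Finset.range (p.natDegree + 1),
          Integrable (fun z => p.coeff j • (SRK_it κ K j z v • f z)) (volume : Measure ℍ) :=
        fun j _ => (hint j v).smul (p.coeff j)
      rw [e5, integral_finsetSum _ hint']
      refine Finset.sum_congr rfl fun j _ => ?_
      rw [integral_smul]

end Pool.Agent.QX
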